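import Pool.Agent.H82.PRP.Stmts

/-!
# REL: choice of the relators
-/

namespace Pool.Agent.H82.PRP

theorem rel_thm : RELStmt := by
  intro p _ F _ _ _ _ _ gen D hF M hM v hv
  classical
  have hp : 0 < p := (Fact.out : p.Prime).pos
  have hfin : ∀ n, Finite (F ⧸ D n) := by
    intro n
    obtain ⟨k, hk⟩ := hF.index n
    have : (D n).FiniteIndex := ⟨by rw [hk]; exact (pow_pos hp k).ne'⟩
    infer_instance
  have he : ∀ n, ∃ e : (F ⧸ D (n + 1)) → ℕ, Function.Injective e := by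
    intro n
    have := hfin (n + 1)
    exact ⟨fun c => ((Finite.equivFin (F ⧸ D (n + 1))) c : ℕ), fun a b h =>
      (Finite.equivFin (F ⧸ D (n + 1))).injective (Fin.ext h)⟩
  choose e he using he
  let T : Type := Σ n : ℕ, {c : F ⧸ D (n + 1) // ∃ w ∈ M ⊓ D n, ((w : F) : F ⧸ D (n + 1)) = c}
  let ι : T → ℕ := fun τ => Nat.pair τ.1 (e τ.1 τ.2.1)
  let t : T → F := fun τ => Classical.choose τ.2.2
  have ht : ∀ τ : T, t τ ∈ M ⊓ D τ.1 ∧ ((t τ : F) : F ⧸ D (τ.1 + 1)) = τ.2.1 := fun τ =>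
    Classical.choose_spec τ.2.2
  have hιle : ∀ τ : T, τ.1 ≤ ι τ := fun τ => Nat.left_le_pair _ _
  have hvm : ∀ τ : T, v (ι τ) ∈ D (τ.1 + 2) := fun τ =>
    hF.anti (Nat.add_le_add_right (hιle τ) 2) (hv (ι τ))
  refine ⟨T, fun τ => t τ * v (ι τ), ι, t, ?_, fun τ => (ht τ).1.1, fun τ => rfl, ?_, ?_⟩
  · rintro ⟨n, c⟩ ⟨n', c'⟩ h
    have h2 := Nat.pair_eq_pair.mp h
    obtain ⟨h3, h4⟩ := h2
    dsimp only at h3
    subst h3
    dsimp only at h4
    have h5 := he n h4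
    have h6 : c = c' := Subtype.ext h5
    rw [h6]
  · intro n
    have hsub : {τ : T | t τ * v (ι τ) ∉ D n} ⊆
        ⋃ n' ∈ (Finset.range n : Set ℕ), (Sigma.mk n' '' (Set.univ :
          Set {c : F ⧸ D (n' + 1) // ∃ w ∈ M ⊓ D n', ((w : F) : F ⧸ D (n' + 1)) = c}) : Set T) := by
      intro τ hτ
      rw [Set.mem_iUnion₂]
      refine ⟨τ.1, ?_, τ.2, Set.mem_univ _, rfl⟩
      rw [Finset.mem_coe, Finset.mem_range]
      by_contra hlt
      push Not at hlt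
      apply hτ
      exact (D n).mul_mem (hF.anti hlt (ht τ).1.2) (hF.anti (by omega) (hvm τ))
    refine Set.Finite.subset ?_ hsub
    apply Set.Finite.biUnion (Finset.finite_toSet _)
    intro n' _
    have := hfin (n' + 1)
    exact Set.Finite.image _ Set.finite_univ
  · intro n _ w hw
    obtain ⟨hwD, hwM⟩ := Subgroup.mem_inf.mp hw
    let τ : T := ⟨n, ⟨((w : F) : F ⧸ D (n + 1)), w, Subgroup.mem_inf.mpr ⟨hwM, hwD⟩, rfl⟩⟩
    have h1 : ((t τ : F) : F ⧸ D (n + 1)) = ((w : F) : F ⧸ D (n + 1)) := (ht τ).2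
    have h2 : (t τ)⁻¹ * w ∈ D (n + 1) := QuotientGroup.eq.mp h1
    have h3 : v (ι τ) ∈ D (n + 1) := hF.anti (by change n + 1 ≤ n + 2; omega) (hvm τ)
    have h4 : w = (t τ * v (ι τ)) * ((v (ι τ))⁻¹ * ((t τ)⁻¹ * w)) := by group
    rw [h4]
    apply Subgroup.mul_mem
    · exact Subgroup.mem_sup_right (Subgroup.subset_normalClosure ⟨τ, rfl⟩)
    · exact Subgroup.mem_sup_left ((D (n + 1)).mul_mem ((D (n + 1)).inv_mem h3) h2)

end Pool.Agent.H82.PRP
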