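import Pool.Agent.H82.PRP.Stmts

/-!
# SUBX: the product is bounded for subexponential `c`
-/

namespace Pool.Agent.H82.PRP

theorem subx_thm : SUBXStmt := by
  intro c hc t ht0 ht1
  have h1t : 0 < 1 - t := by linarith
  have hεpos : 0 < (1 - t) / (2 * t) := by positivity
  obtain ⟨C0, hC0⟩ := hc _ hεpos
  have hC0' : 0 ≤ C0 := by
    have h := hC0 0
    simp only [pow_zero, mul_one] at h
    exact le_trans (Nat.cast_nonneg _) h
  have hr : (1 + (1 - t) / (2 * t)) * t = (1 + t) / 2 := by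
    field_simp
    ring
  have hr1 : (1 + t) / 2 < 1 := by linarith
  have hr0 : 0 ≤ (1 + t) / 2 := by linarith
  have h1r : 0 < 1 - (1 + t) / 2 := by linarith
  refine ⟨Real.exp (C0 / (1 - t) * (1 - (1 + t) / 2)⁻¹), Real.exp_pos _, ?_⟩
  intro n
  have hfac : ∀ k ∈ Finset.Ico 1 n, ((1 - t ^ k)⁻¹) ^ (c k) ≤
      Real.exp (C0 / (1 - t) * ((1 + t) / 2) ^ k) := by
    intro k hk
    have hk1 : 1 ≤ k := (Finset.mem_Ico.mp hk).1
    have htk0 : 0 < t ^ k := pow_pos ht0 k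
    have htk : t ^ k ≤ t := by
      calc t ^ k ≤ t ^ 1 := pow_le_pow_of_le_one ht0.le ht1.le hk1
        _ = t := pow_one t
    have hpos : 0 < 1 - t ^ k := by linarith
    have h1 : (1 - t ^ k)⁻¹ ≤ Real.exp (t ^ k / (1 - t)) := by
      have e1 : (1 - t ^ k)⁻¹ = t ^ k / (1 - t ^ k) + 1 := by
        field_simp
        ring
      have e2 : t ^ k / (1 - t ^ k) ≤ t ^ k / (1 - t) :=
        div_le_div_of_nonneg_left htk0.le h1t (by linarith)
      have e3 := Real.add_one_le_exp (t ^ k / (1 - t))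
      linarith
    have hinv0 : 0 ≤ (1 - t ^ k)⁻¹ := (inv_pos.mpr hpos).le
    calc ((1 - t ^ k)⁻¹) ^ (c k) ≤ (Real.exp (t ^ k / (1 - t))) ^ (c k) :=
          pow_le_pow_left₀ hinv0 h1 _
      _ = Real.exp ((c k : ℝ) * (t ^ k / (1 - t))) := (Real.exp_nat_mul _ _).symm
      _ ≤ Real.exp (C0 / (1 - t) * ((1 + t) / 2) ^ k) := by
          apply Real.exp_le_exp.mpr
          have h2 := hC0 k
          have h3 : (c k : ℝ) * t ^ k ≤ C0 * ((1 + t) / 2) ^ k := by
            calc (c k : ℝ) * t ^ k ≤ (C0 * (1 + (1 - t) / (2 * t)) ^ k) * t ^ k :=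
                  mul_le_mul_of_nonneg_right h2 htk0.le
              _ = C0 * ((1 + (1 - t) / (2 * t)) * t) ^ k := by
                  rw [mul_pow]
                  ring
              _ = C0 * ((1 + t) / 2) ^ k := by rw [hr]
          calc (c k : ℝ) * (t ^ k / (1 - t)) = ((c k : ℝ) * t ^ k) / (1 - t) := by ring
            _ ≤ (C0 * ((1 + t) / 2) ^ k) / (1 - t) := div_le_div_of_nonneg_right h3 h1t.le
            _ = C0 / (1 - t) * ((1 + t) / 2) ^ k := by ring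
  have hnn : ∀ k ∈ Finset.Ico 1 n, 0 ≤ ((1 - t ^ k)⁻¹) ^ (c k) := by
    intro k hk
    have hk1 : 1 ≤ k := (Finset.mem_Ico.mp hk).1
    have htk : t ^ k ≤ t := by
      calc t ^ k ≤ t ^ 1 := pow_le_pow_of_le_one ht0.le ht1.le hk1
        _ = t := pow_one t
    have hpos : 0 < 1 - t ^ k := by linarith
    exact pow_nonneg (inv_pos.mpr hpos).le _
  have hsum : ∑ k ∈ Finset.Ico 1 n, ((1 + t) / 2) ^ k ≤ (1 - (1 + t) / 2)⁻¹ := by
    rw [← tsum_geometric_of_lt_one hr0 hr1]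
    exact (summable_geometric_of_lt_one hr0 hr1).sum_le_tsum _ (fun i _ => pow_nonneg hr0 i)
  calc ∏ k ∈ Finset.Ico 1 n, ((1 - t ^ k)⁻¹) ^ (c k)
      ≤ ∏ k ∈ Finset.Ico 1 n, Real.exp (C0 / (1 - t) * ((1 + t) / 2) ^ k) :=
        Finset.prod_le_prod hnn hfac
    _ = Real.exp (∑ k ∈ Finset.Ico 1 n, C0 / (1 - t) * ((1 + t) / 2) ^ k) :=
        (Real.exp_sum _ _).symm
    _ ≤ Real.exp (C0 / (1 - t) * (1 - (1 + t) / 2)⁻¹) := by
        apply Real.exp_le_exp.mpr
        rw [← Finset.mul_sum]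
        exact mul_le_mul_of_nonneg_left hsum (div_nonneg hC0' h1t.le)

end Pool.Agent.H82.PRP
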